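import Pool.Agent.K.MP_d36490_an.C0

set_option autoImplicit false

theorem Pool.Agent.Results.MP_d36490_an.ZeroBound.result
    (p q : ℕ) (hpq : q ≤ p) (lam : ℂ) (a : Fin p → ℂ) (b : Fin q → ℂ)
    (ha : ∀ k, ∀ m : ℕ, a k ≠ -(m : ℂ)) (hb : ∀ k, ∀ m : ℕ, b k ≠ -(m : ℂ)) :
    ∃ M : ℝ, ∀ n : ℕ, 1 ≤ n → ∀ z : ℂ,
      ∑ j ∈ Finset.range (n + 1),
        (ascPochhammer ℂ j).eval (-(n : ℂ)) * (ascPochhammer ℂ j).eval ((n : ℂ) + lam)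
          * (∏ k, (ascPochhammer ℂ j).eval (a k)) / (∏ k, (ascPochhammer ℂ j).eval (b k))
          * (z ^ j / (j.factorial : ℂ)) = 0 →
      ‖z‖ ≤ M * (n : ℝ) ^ ((q : ℤ) - (p : ℤ) - 1) :=
  Pool.Agent.P.MP_d36490_an.main p q hpq lam a b ha hb
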